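import Pool.Agent.TH931.LP.Stm

/-!
# LP931, job K3: the simple kernel from the body (helper381)
-/

set_option autoImplicit false

open MeasureTheory Set
open scoped ENNReal Matrix

noncomputable section

namespace Pool.Agent.TH381.LP931

open Pool.Agent.TH931.LP

variable {n m : ℕ} {U V U' V' : Type}

/-! ### frames -/

theorem h_eq {F : Fr n U V} (hG : Good F) (y : Fin n → ℝ) : F.v (F.vt y) ⬝ᵥ y = F.h y :=
  hG.dhalf.eq y

theorem h_smul {F : Fr n U V} (hG : Good F) {t : ℝ} (ht : 0 < t) (y : Fin n → ℝ) :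
    F.h (t • y) = t * F.h y := by
  rw [← h_eq hG, ← h_eq hG y, show F.vt (t • y) = F.vt y from hG.dhalf.smul t ht y,
    dotProduct_smul, smul_eq_mul]

theorem h_zero {F : Fr n U V} (hG : Good F) : F.h 0 = 0 := by
  rw [← h_eq hG, dotProduct_zero]

theorem h_pos {F : Fr n U V} (hG : Good F) {y : Fin n → ℝ} (hy : y ≠ 0) : 0 < F.h y :=
  hG.dhalf.pos y hy

theorem h_nonneg {F : Fr n U V} (hG : Good F) (y : Fin n → ℝ) : 0 ≤ F.h y := by
  by_cases hy : y = 0
  · rw [hy, h_zero hG]
  · exact (h_pos hG hy).le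

theorem h_neg {F : Fr n U V} (hG : Good F) (y : Fin n → ℝ) : F.h (-y) = F.h y :=
  hG.dhalf.neg y

theorem vt_meas {F : Fr n U V} (hG : Good F) (b : V) : MeasurableSet {y | F.vt y = b} :=
  hG.dhalf.meas b

theorem dot_meas (v : Fin n → ℝ) : Measurable fun y : Fin n → ℝ => v ⬝ᵥ y := by
  unfold dotProduct
  exact Finset.measurable_sum _ fun i _ => (measurable_pi_apply i).const_mul _

theorem h_meas [Fintype V] {F : Fr n U V} (hG : Good F) : Measurable F.h := by
  classical
  have h1 : F.h = fun y => ∑ b, indicator {y | F.vt y = b} (fun y => F.v b ⬝ᵥ y) y := by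
    funext y
    rw [Finset.sum_eq_single (F.vt y)]
    · rw [indicator_of_mem (show y ∈ {z | F.vt z = F.vt y} from rfl), h_eq hG]
    · intro b _ hb
      exact indicator_of_notMem (fun h => hb h.symm) _
    · intro h
      exact absurd (Finset.mem_univ _) h
  rw [h1]
  exact Finset.measurable_sum _ fun b _ => (dot_meas _).indicator (vt_meas hG b)

theorem pol_meas [Fintype V] {F : Fr n U V} (hG : Good F) : MeasurableSet F.pol :=
  measurableSet_le (h_meas hG) measurable_const

theorem vol_ne {F : Fr n U V} (hG : Good F) : volume F.pol ≠ 0 ∧ volume F.pol ≠ ⊤ := by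
  have h1 := hG.vol
  have h2 : (0 : ℝ) < 4 ^ n / n.factorial := by positivity
  have h3 : volume.real F.pol ≠ 0 := by
    intro h
    rw [h, mul_zero] at h1
    exact h2.ne h1
  rw [Measure.real, ENNReal.toReal_ne_zero] at h3
  exact h3

theorem h_null {F : Fr n U V} (hG : Good F) : ∀ᵐ y : Fin n → ℝ, 0 < F.h y := by
  have : Nonempty (Fin n) := ⟨⟨0, hG.n_pos⟩⟩
  have h1 : volume ({0} : Set (Fin n → ℝ)) = 0 := by simp
  refine measure_mono_null (t := {0}) (fun y hy => ?_) h1
  by_contra h
  exact hy (h_pos hG h)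

/-- radial integration over `{h ≤ 1}` -/
theorem rad1 [Fintype V] (h2 : S_rad) {F : Fr n U V} (hG : Good F) (f : (Fin n → ℝ) → ℝ≥0∞)
    (hf : Measurable f) (hf0 : ∀ t : ℝ, 0 < t → ∀ y, f (t • y) = f y) (g : ℝ → ℝ≥0∞)
    (hg : Measurable g) :
    ∫⁻ y in F.pol, g (F.h y) * f y =
      (∫⁻ r in Ioc (0 : ℝ) 1, ENNReal.ofReal (n * r ^ (n - 1)) * g r) * ∫⁻ y in F.pol, f y := by
  have h3 := h2 n F.h hG.n_pos (h_meas hG) (h_nonneg hG) (fun t ht y => h_smul hG ht y)
    (vol_ne hG).2 f hf hf0 (indicator (Iic 1) g) (hg.indicator measurableSet_Iic)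
  have h4 : ∫⁻ y in F.pol, g (F.h y) * f y = ∫⁻ y, indicator (Iic 1) g (F.h y) * f y := by
    rw [← lintegral_indicator (pol_meas hG)]
    refine lintegral_congr fun y => ?_
    by_cases hy : F.h y ≤ 1
    · rw [indicator_of_mem (show y ∈ F.pol from hy), indicator_of_mem (show F.h y ∈ Iic 1 from hy)]
    · rw [indicator_of_notMem (show y ∉ F.pol from hy),
        indicator_of_notMem (show F.h y ∉ Iic 1 from hy), zero_mul]
  have h5 : ∫⁻ r in Ioi (0 : ℝ), ENNReal.ofReal (n * r ^ (n - 1)) * indicator (Iic 1) g r =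
      ∫⁻ r in Ioc (0 : ℝ) 1, ENNReal.ofReal (n * r ^ (n - 1)) * g r := by
    rw [← lintegral_indicator measurableSet_Ioi, ← lintegral_indicator measurableSet_Ioc]
    refine lintegral_congr fun r => ?_
    by_cases hr : 0 < r
    · by_cases hr1 : r ≤ 1
      · rw [indicator_of_mem (show r ∈ Ioi (0 : ℝ) from hr),
          indicator_of_mem (show r ∈ Ioc (0 : ℝ) 1 from ⟨hr, hr1⟩),
          indicator_of_mem (show r ∈ Iic (1 : ℝ) from hr1)]
      · rw [indicator_of_mem (show r ∈ Ioi (0 : ℝ) from hr),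
          indicator_of_notMem (show r ∉ Ioc (0 : ℝ) 1 from fun h => hr1 h.2),
          indicator_of_notMem (show r ∉ Iic (1 : ℝ) from hr1), mul_zero]
    · rw [indicator_of_notMem (show r ∉ Ioi (0 : ℝ) from hr),
        indicator_of_notMem (show r ∉ Ioc (0 : ℝ) 1 from fun h => hr h.1)]
  rw [h4, h3, h5]
  rfl

/-- polynomial moments -/
theorem mom (n k : ℕ) (hn : 0 < n) : ∫⁻ r in Ioc (0 : ℝ) 1, ENNReal.ofReal (n * r ^ (n - 1)) *
    ENNReal.ofReal (r ^ k) = ENNReal.ofReal ((n : ℝ) / (n + k)) := by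
  have h1 : ∀ r ∈ Ioc (0 : ℝ) 1, ENNReal.ofReal (n * r ^ (n - 1)) * ENNReal.ofReal (r ^ k) =
      ENNReal.ofReal (n * r ^ (n - 1 + k)) := by
    intro r hr
    have hr0 := hr.1
    rw [← ENNReal.ofReal_mul (by positivity), pow_add]
    ring_nf
  rw [setLIntegral_congr_fun measurableSet_Ioc h1, ← ofReal_integral_eq_lintegral_ofReal]
  · rw [← intervalIntegral.integral_of_le zero_le_one, intervalIntegral.integral_const_mul,
      integral_pow]
    congr 1
    have h2 : ((n - 1 + k : ℕ) : ℝ) + 1 = n + k := by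
      have : n - 1 + k + 1 = n + k := by omega
      exact_mod_cast this
    rw [h2, zero_pow (by omega), one_pow]
    ring
  · refine Continuous.integrableOn_Ioc ?_
    fun_prop
  · refine (ae_restrict_iff' measurableSet_Ioc).2 (Filter.Eventually.of_forall fun r hr => ?_)
    have hr0 := hr.1
    positivity

theorem lint_h [Fintype V] (h2 : S_rad) {F : Fr n U V} (hG : Good F) :
    ∫⁻ y in F.pol, ENNReal.ofReal (F.h y) = ENNReal.ofReal ((n : ℝ) / (n + 1)) * volume F.pol := by
  have h3 := rad1 h2 hG (fun _ => 1) measurable_const (fun _ _ _ => rfl)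
    (fun r => ENNReal.ofReal r) ENNReal.measurable_ofReal
  simp only [mul_one, lintegral_const, Measure.restrict_apply MeasurableSet.univ, univ_inter,
    one_mul] at h3
  rw [h3]
  have h4 := mom n 1 hG.n_pos
  simp only [pow_one, Nat.cast_one] at h4
  rw [h4]

theorem lint_split [Fintype V] {F : Fr n U V} (hG : Good F) (f : (Fin n → ℝ) → ℝ≥0∞)
    (hf : Measurable f) :
    ∫⁻ y in F.pol, f y = ∑ b, ∫⁻ y in {y | F.h y ≤ 1 ∧ F.vt y = b}, f y := by
  classical
  have h1 : ∀ b, ∫⁻ y in {y | F.h y ≤ 1 ∧ F.vt y = b}, f y =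
      ∫⁻ y in F.pol, indicator {y | F.vt y = b} f y := by
    intro b
    rw [lintegral_indicator (vt_meas hG b), Measure.restrict_restrict (vt_meas hG b)]
    congr 2
    ext y
    exact and_comm
  simp only [h1]
  rw [← lintegral_finsetSum _ fun b _ => hf.indicator (vt_meas hG b)]
  refine lintegral_congr fun y => ?_
  rw [Finset.sum_eq_single (F.vt y)]
  · rw [indicator_of_mem (show y ∈ {z | F.vt z = F.vt y} from rfl)]
  · intro b _ hb
    exact indicator_of_notMem (fun h => hb h.symm) _
  · intro h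
    exact absurd (Finset.mem_univ _) h

/-! ### kernels -/

section ker
variable [Fintype U] [Fintype V] {F : Fr n U V} {α : U → V → ℝ} {mu : (Fin n → ℝ) → U → ℝ}

theorem sum_mu (hG : Good F) (K : Ker F α mu) (y : Fin n → ℝ) : ∑ a, mu y a = F.h y := by
  have h1 : F.v (F.vt y) ⬝ᵥ (∑ a, mu y a • F.u a) = F.h y := by rw [K.bary, h_eq hG]
  rw [dotProduct_sum] at h1
  rw [← h1]
  refine Finset.sum_congr rfl fun a _ => ?_
  rw [dotProduct_smul, smul_eq_mul]
  by_cases h : mu y a = 0
  · rw [h, zero_mul]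
  · rw [dotProduct_comm, K.supp y a h, mul_one]

theorem lint_mu (hG : Good F) (K : Ker F α mu) (a : U) :
    ∫⁻ y in F.pol, ENNReal.ofReal (mu y a) =
      ENNReal.ofReal ((n : ℝ) / (n + 1) * ∑ b, α a b) * volume F.pol := by
  rw [lint_split hG _ (K.meas a).ennreal_ofReal]
  simp only [K.law]
  rw [← Finset.sum_mul, ← ENNReal.ofReal_sum_of_nonneg, ← Finset.mul_sum]
  intro b _
  have := K.alpha a b
  positivity

theorem sum_alpha (h2 : S_rad) (hG : Good F) (K : Ker F α mu) : ∑ a, ∑ b, α a b = 1 := by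
  have h3 : ∫⁻ y in F.pol, ENNReal.ofReal (F.h y) =
      ENNReal.ofReal ((n : ℝ) / (n + 1) * ∑ a, ∑ b, α a b) * volume F.pol := by
    have h4 : ∀ y, ENNReal.ofReal (F.h y) = ∑ a, ENNReal.ofReal (mu y a) := by
      intro y
      rw [← sum_mu hG K y, ENNReal.ofReal_sum_of_nonneg fun a _ => K.nonneg y a]
    simp only [h4]
    rw [lintegral_finsetSum _ fun a _ => (K.meas a).ennreal_ofReal]
    simp only [lint_mu hG K]
    rw [← Finset.sum_mul, ← ENNReal.ofReal_sum_of_nonneg, ← Finset.mul_sum]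
    intro a _
    have := Finset.sum_nonneg fun b (_ : b ∈ Finset.univ) => K.alpha a b
    positivity
  rw [lint_h h2 hG] at h3
  have hn : (0 : ℝ) < n := by exact_mod_cast hG.n_pos
  have h5 := (ENNReal.mul_left_inj (vol_ne hG).1 (vol_ne hG).2).1 h3
  have h6 : 0 ≤ ∑ a, ∑ b, α a b := Finset.sum_nonneg fun a _ =>
    Finset.sum_nonneg fun b _ => K.alpha a b
  rw [ENNReal.ofReal_eq_ofReal_iff (by positivity) (by positivity)] at h5
  have h7 : (n : ℝ) / (n + 1) ≠ 0 := by positivity
  have h8 : (n : ℝ) / (n + 1) * (∑ a, ∑ b, α a b) = (n : ℝ) / (n + 1) * 1 := by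
    rw [← h5, mul_one]
  exact mul_left_cancel₀ h7 h8

theorem omega_nonneg (K : Ker F α mu) (a : U) : 0 ≤ ∑ b, α a b :=
  Finset.sum_nonneg fun b _ => K.alpha a b

theorem mu_int (hG : Good F) (K : Ker F α mu) (a : U) :
    IntegrableOn (fun y => mu y a) F.pol ∧
      ∫ y in F.pol, mu y a = (n : ℝ) / (n + 1) * (∑ b, α a b) * volume.real F.pol := by
  have h1 := lint_mu hG K a
  have hn : (0 : ℝ) < n := by exact_mod_cast hG.n_pos
  have h0 := omega_nonneg K a
  have hne : ENNReal.ofReal ((n : ℝ) / (n + 1) * ∑ b, α a b) * volume F.pol ≠ ⊤ :=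
    ENNReal.mul_ne_top ENNReal.ofReal_ne_top (vol_ne hG).2
  have h2 : ∫ y in F.pol, mu y a = (n : ℝ) / (n + 1) * (∑ b, α a b) * volume.real F.pol := by
    rw [integral_eq_lintegral_of_nonneg_ae (Filter.Eventually.of_forall fun y => K.nonneg y a)
      (K.meas a).aestronglyMeasurable, h1, ENNReal.toReal_mul, ENNReal.toReal_ofReal (by positivity)]
    rfl
  refine ⟨⟨(K.meas a).aestronglyMeasurable, ?_⟩, h2⟩
  rw [hasFiniteIntegral_iff_ofReal (Filter.Eventually.of_forall fun y => K.nonneg y a), h1]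
  exact hne.lt_top

theorem coord_zero (hG : Good F) (i : Fin n) : ∫ y in F.pol, y i = 0 := by
  rw [← integral_indicator (pol_meas hG)]
  have h1 := integral_neg_eq_self (indicator F.pol fun y : Fin n → ℝ => y i) volume
  have h2 : ∀ y : Fin n → ℝ, indicator F.pol (fun y : Fin n → ℝ => y i) (-y) =
      -indicator F.pol (fun y : Fin n → ℝ => y i) y := by
    intro y
    by_cases hy : F.h y ≤ 1
    · rw [indicator_of_mem (show y ∈ F.pol from hy),
        indicator_of_mem (show -y ∈ F.pol by show F.h (-y) ≤ 1; rw [h_neg hG]; exact hy)]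
      rfl
    · rw [indicator_of_notMem (show y ∉ F.pol from hy),
        indicator_of_notMem (show -y ∉ F.pol by
          intro h
          exact hy (by rw [← h_neg hG]; exact h)), neg_zero]
  simp only [h2] at h1
  rw [integral_neg] at h1
  linarith

theorem omega_bary (hG : Good F) (K : Ker F α mu) : ∑ a, (∑ b, α a b) • F.u a = 0 := by
  have hn : (0 : ℝ) < n := by exact_mod_cast hG.n_pos
  funext i
  have h1 : ∫ y in F.pol, y i = ∑ a, ((n : ℝ) / (n + 1) * (∑ b, α a b) * volume.real F.pol) *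
      F.u a i := by
    have h2 : ∀ y : Fin n → ℝ, y i = ∑ a, mu y a * F.u a i := by
      intro y
      have := congrFun (K.bary y) i
      rw [Finset.sum_apply] at this
      rw [← this]
      rfl
    calc ∫ y in F.pol, y i = ∫ y in F.pol, ∑ a, mu y a * F.u a i := by
          refine integral_congr_ae (Filter.Eventually.of_forall fun y => ?_)
          exact h2 y
      _ = ∑ a, ∫ y in F.pol, mu y a * F.u a i :=
          integral_finsetSum _ fun a _ => (mu_int hG K a).1.mul_const _
      _ = _ := by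
          refine Finset.sum_congr rfl fun a _ => ?_
          rw [integral_mul_const, (mu_int hG K a).2]
  rw [coord_zero hG i] at h1
  have hv : 0 < volume.real F.pol := ENNReal.toReal_pos (vol_ne hG).1 (vol_ne hG).2
  have h3 : ∑ a, ((n : ℝ) / (n + 1) * (∑ b, α a b) * volume.real F.pol) * F.u a i =
      ((n : ℝ) / (n + 1) * volume.real F.pol) * ∑ a, (∑ b, α a b) * F.u a i := by
    rw [Finset.mul_sum]
    exact Finset.sum_congr rfl fun a _ => by ring
  rw [h3] at h1
  have h4 : ((n : ℝ) / (n + 1) * volume.real F.pol) ≠ 0 := by positivity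
  have h5 := (mul_eq_zero.1 h1.symm).resolve_left h4
  rw [Finset.sum_apply]
  simpa using h5

end ker

/-- K3: the simple kernel from the body -/
theorem lam0k (h2 : S_rad) : S_lam0 := by
  intro n U V _ _ F α mu hG K
  have hn : (0 : ℝ) < n := by exact_mod_cast hG.n_pos
  refine ⟨?_, ?_, ?_, ?_, ?_⟩
  · intro b a hb
    exact add_nonneg (K.nonneg b a) (mul_nonneg (by linarith) (omega_nonneg K a))
  · intro a
    exact (K.meas a).add ((measurable_const.sub (h_meas hG)).mul_const _)
  · intro b _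
    unfold lam0
    rw [Finset.sum_add_distrib, sum_mu hG K, ← Finset.mul_sum, sum_alpha h2 hG K]
    ring
  · intro b _
    unfold lam0
    simp only [add_smul]
    rw [Finset.sum_add_distrib, K.bary]
    simp only [mul_smul]
    rw [← Finset.smul_sum, omega_bary hG K, smul_zero, add_zero]
  · intro a
    have h3 : ∀ b ∈ F.pol, ENNReal.ofReal (lam0 F α mu b a) = ENNReal.ofReal (mu b a) +
        (ENNReal.ofReal (∑ b', α a b')) * (1 - ENNReal.ofReal (F.h b)) := by
      intro b hb
      unfold lam0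
      have hb' : F.h b ≤ 1 := hb
      rw [ENNReal.ofReal_add (K.nonneg b a) (mul_nonneg (by linarith) (omega_nonneg K a)),
        mul_comm (1 - F.h b), ENNReal.ofReal_mul (omega_nonneg K a),
        ENNReal.ofReal_sub _ (h_nonneg hG b), ENNReal.ofReal_one]
    have hm : Measurable fun b => (1 : ℝ≥0∞) - ENNReal.ofReal (F.h b) :=
      measurable_const.sub (h_meas hG).ennreal_ofReal
    rw [setLIntegral_congr_fun (pol_meas hG) h3, lintegral_add_left (K.meas a).ennreal_ofReal,
      lint_mu hG K, lintegral_const_mul _ hm]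
    have h4 : ∫⁻ b in F.pol, (1 - ENNReal.ofReal (F.h b)) =
        ENNReal.ofReal (1 / (n + 1)) * volume F.pol := by
      rw [lintegral_sub (h_meas hG).ennreal_ofReal, lint_h h2 hG]
      · simp only [lintegral_const, Measure.restrict_apply MeasurableSet.univ, univ_inter, one_mul]
        conv_lhs => rw [← one_mul (volume F.pol), ← mul_assoc, mul_one]
        rw [← ENNReal.sub_mul (fun _ _ => (vol_ne hG).2), ← ENNReal.ofReal_one,
          ← ENNReal.ofReal_sub _ (by positivity)]
        congr 2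
        field_simp
        ring
      · rw [lint_h h2 hG]
        exact ENNReal.mul_ne_top ENNReal.ofReal_ne_top (vol_ne hG).2
      · refine (ae_restrict_iff' (pol_meas hG)).2 (Filter.Eventually.of_forall fun b hb => ?_)
        rw [← ENNReal.ofReal_one]
        exact ENNReal.ofReal_le_ofReal hb
    rw [h4, ← mul_assoc, ← add_mul, ← ENNReal.ofReal_mul (omega_nonneg K a),
      ← ENNReal.ofReal_add (by have := omega_nonneg K a; positivity)
        (by have := omega_nonneg K a; positivity)]
    congr 2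
    field_simp

end Pool.Agent.TH381.LP931
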